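import Mathlib

set_option autoImplicit false

namespace Pool.Agent.Results.MP_b9e70b_co.Unbounded

open Finset

/-- `P` is a monochromatic `H`-packing in `G` under the edge colouring `χ`: every `f ∈ P` is a
copy of `H` in `G` all of whose edges have one colour, and distinct copies are vertex-disjoint. -/
def MonoPacking {W V : Type} {r : ℕ} (H : SimpleGraph W) (G : SimpleGraph V) (χ : Sym2 V → Fin r)
    (P : Set (W ↪ V)) : Prop :=
  (∀ f ∈ P, ∃ col, ∀ a b, H.Adj a b → G.Adj (f a) (f b) ∧ χ s(f a, f b) = col) ∧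
    P.Pairwise fun f g => Disjoint (Set.range f) (Set.range g)

/-- the vertices that no copy in `P` covers -/
def uncovered {W V : Type} (P : Set (W ↪ V)) : Set V := {v | ∀ f ∈ P, v ∉ Set.range f}

abbrev Vt (p : ℕ) : Type := (ZMod p × ZMod p × Bool) ⊕ Fin (2 * p * p - p)

def rel (p : ℕ) : Vt p → Vt p → Prop
  | .inl u, .inl v => u.2.2 ≠ v.2.2 ∧ u.2.1 + v.2.1 = u.1 * v.1
  | .inl _, .inr _ => True
  | .inr _, .inl _ => True
  | .inr _, .inr _ => False

def gr (p : ℕ) : SimpleGraph (Vt p) where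
  Adj := rel p
  symm := ⟨by
    rintro (u | u) (v | v) h
    · exact ⟨h.1.symm, by rw [add_comm, mul_comm]; exact h.2⟩
    · trivial
    · trivial
    · exact h⟩
  loopless := ⟨by
    rintro (u | u) h
    · exact h.1 rfl
    · exact h⟩

noncomputable def col (p : ℕ) (e : Sym2 (Vt p)) : Fin 2 := by
  classical exact if ∀ v ∈ e, v.isLeft = true then 0 else 1

def wt (p : ℕ) (v : Vt p) : ℤ := if v.isLeft = true then 1 else -1

lemma regular (p : ℕ) [NeZero p] [DecidableRel (gr p).Adj] :
    (gr p).IsRegularOfDegree (2 * p * p) := by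
  have hp : p ≤ 2 * p * p := by have := NeZero.pos p; nlinarith
  rintro (u | u)
  · have : (gr p).neighborFinset (.inl u) =
        (univ.image fun x : ZMod p => (x, u.1 * x - u.2.1, !u.2.2)).disjSum univ := by
      ext (v | v)
      · obtain ⟨x, y, b⟩ := v
        simp only [SimpleGraph.mem_neighborFinset, gr, rel, inl_mem_disjSum, mem_image, mem_univ,
          true_and, Prod.mk.injEq]
        constructor
        · rintro ⟨h1, h2⟩
          refine ⟨x, rfl, by rw [← h2]; ring, ?_⟩
          revert h1; cases u.2.2 <;> cases b <;> simp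
        · rintro ⟨x', rfl, rfl, rfl⟩
          exact ⟨by simp, by ring⟩
      · simp [gr, rel]
    rw [← SimpleGraph.card_neighborFinset_eq_degree, this, card_disjSum,
      card_image_of_injective _ fun x y h => (Prod.mk.inj h).1]
    simp only [card_univ, ZMod.card, Fintype.card_fin]
    omega
  · have : (gr p).neighborFinset (.inr u) = (univ : Finset (ZMod p × ZMod p × Bool)).disjSum ∅ := by
      ext (v | v) <;> simp [gr, rel]
    rw [← SimpleGraph.card_neighborFinset_eq_degree, this, card_disjSum]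
    simp only [card_univ, Fintype.card_prod, ZMod.card, Fintype.card_bool, card_empty]
    ring

lemma sum_wt (p : ℕ) [NeZero p] : ∑ v, wt p v = p := by
  have hp : p ≤ 2 * p * p := by have := NeZero.pos p; nlinarith
  simp only [Fintype.sum_sum_type, wt, Sum.isLeft_inl, Sum.isLeft_inr, if_true, sum_const,
    card_univ, Fintype.card_prod, ZMod.card, Fintype.card_bool]
  simp [Nat.cast_sub hp]
  ring

lemma copy_wt (p : ℕ) [Fact p.Prime] (f : Fin 4 ↪ Vt p) (c : Fin 2)
    (h : ∀ a b, (SimpleGraph.cycleGraph 4).Adj a b →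
      (gr p).Adj (f a) (f b) ∧ col p s(f a, f b) = c) : ∑ a, wt p (f a) = 0 := by
  have h01 := h 0 1 (by decide)
  have h12 := h 1 2 (by decide)
  have h23 := h 2 3 (by decide)
  have h30 := h 3 0 (by decide)
  have n02 : f 0 ≠ f 2 := f.injective.ne (by decide)
  have n13 : f 1 ≠ f 3 := f.injective.ne (by decide)
  rw [Fin.sum_univ_four]
  generalize f 0 = a at *
  generalize f 1 = b at *
  generalize f 2 = d at *
  generalize f 3 = e at *
  obtain ⟨a1, a2⟩ := h01
  obtain ⟨b1, b2⟩ := h12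
  obtain ⟨c1, c2⟩ := h23
  obtain ⟨d1, d2⟩ := h30
  have e1 := a2.trans b2.symm
  have e2 := b2.trans c2.symm
  have e3 := c2.trans d2.symm
  clear a2 b2 c2 d2 h
  rcases a with a | a <;> rcases b with b | b <;> rcases d with d | d <;> rcases e with e | e <;>
    simp [col, wt, gr, rel] at e1 e2 e3 a1 b1 c1 d1 ⊢
  obtain ⟨x0, y0, t0⟩ := a
  obtain ⟨x1, y1, t1⟩ := b
  obtain ⟨x2, y2, t2⟩ := d
  obtain ⟨x3, y3, t3⟩ := e
  simp only at a1 b1 c1 d1
  have hb : ∀ a b c : Bool, ¬ a = b → ¬ b = c → a = c := by decide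
  have key : (x0 - x2) * (x1 - x3) = 0 := by
    linear_combination -a1.2 + b1.2 - c1.2 + d1.2
  rcases mul_eq_zero.1 key with k | k
  · have k1 : x0 = x2 := sub_eq_zero.1 k
    have k2 : y0 = y2 := by rw [k1] at a1; linear_combination a1.2 - b1.2
    have k3 : t0 = t2 := hb _ _ _ a1.1 b1.1
    exact n02 (by rw [k1, k2, k3])
  · have k1 : x1 = x3 := sub_eq_zero.1 k
    have k2 : y1 = y3 := by rw [k1] at b1; linear_combination b1.2 - c1.2
    have k3 : t1 = t3 := hb _ _ _ b1.1 c1.1
    exact n13 (by rw [k1, k2, k3])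

/-- Negated form of Q1 with `H = C₄`, `r = 2`, `c = 1 / 2`. -/
theorem result : (SimpleGraph.cycleGraph 4).IsBipartite ∧ ∀ C : ℕ,
    ∃ (V : Type) (_ : Fintype V) (G : SimpleGraph V) (_ : DecidableRel G.Adj) (d : ℕ),
      G.IsRegularOfDegree d ∧ (1 / 2 : ℝ) * Fintype.card V ≤ d ∧ ∃ χ : Sym2 V → Fin 2,
        ∀ P : Set (Fin 4 ↪ V), MonoPacking (SimpleGraph.cycleGraph 4) G χ P →
          C < (uncovered P).ncard := by
  classical
  refine ⟨⟨SimpleGraph.Coloring.mk (fun a => if a = 0 ∨ a = 2 then 0 else 1) (by decide)⟩,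
    fun C => ?_⟩
  obtain ⟨p, hpC, hp⟩ := Nat.exists_infinite_primes (C + 1)
  have : Fact p.Prime := ⟨hp⟩
  refine ⟨Vt p, inferInstance, gr p, inferInstance, 2 * p * p, regular p, ?_, col p,
    fun P hP => ?_⟩
  · have h1 : Fintype.card (Vt p) ≤ 2 * (2 * p * p) := by
      simp only [Fintype.card_sum, Fintype.card_prod, ZMod.card, Fintype.card_bool,
        Fintype.card_fin]
      have : p * (p * 2) = 2 * p * p := by ring
      omega
    have h2 : (Fintype.card (Vt p) : ℝ) ≤ ((2 * (2 * p * p) : ℕ) : ℝ) := by exact_mod_cast h1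
    push_cast at h2 ⊢
    linarith
  · let Q : Finset (Fin 4 ↪ Vt p) := (Set.toFinite P).toFinset
    have hQ : ∀ f ∈ Q, f ∈ P := fun f hf => (Set.Finite.mem_toFinset _).1 hf
    have hQ' : ∀ f, f ∈ Q ↔ f ∈ P := fun f => Set.Finite.mem_toFinset _
    let U : Finset (Vt p) := Q.biUnion fun f => univ.map f
    have h1 : ∑ v ∈ U, wt p v = 0 := by
      rw [sum_biUnion]
      · refine sum_eq_zero fun f hf => ?_
        obtain ⟨c, hc⟩ := hP.1 f (hQ _ hf)
        rw [sum_map]
        exact copy_wt p f c hc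
      · intro f hf g hg hfg
        have := hP.2 (hQ _ hf) (hQ _ hg) hfg
        rw [Function.onFun, ← disjoint_coe]
        simpa using this
    have h2 : uncovered P = ↑(Uᶜ) := by
      ext v
      simp [uncovered, U, hQ']
    have h3 := sum_add_sum_compl U (wt p)
    rw [h1, sum_wt, zero_add] at h3
    have h4 : ∑ v ∈ Uᶜ, wt p v ≤ Uᶜ.card • (1 : ℤ) :=
      sum_le_card_nsmul _ _ _ fun v _ => by unfold wt; split_ifs <;> norm_num
    rw [h2, Set.ncard_coe_finset]
    simp only [nsmul_eq_mul, mul_one] at h4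
    omega

end Pool.Agent.Results.MP_b9e70b_co.Unbounded
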